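import Mathlib
import Pool.Agent.Helper82.OS.D0
import Pool.Agent.W546.ST.Defs

/-!
# Critical normal forms: abstract skew maps
-/
set_option autoImplicit false
open Matrix MeasureTheory Set Metric Filter Topology
open scoped ENNReal Nat

namespace Pool.Agent.W367.ST
open Pool.Agent.Helper82.OS Pool.Agent.W546.ST

/-- wedge map -/
noncomputable def wd {D : ℕ} (a b : E D) : E D →ₗ[ℝ] E D where
  toFun v := inner ℝ a v • b - inner ℝ b v • a
  map_add' := by
    intro x y
    simp only [inner_add_right, add_smul]; abel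
  map_smul' := by
    intro r x
    simp only [inner_smul_right, mul_smul, RingHom.id_apply, smul_sub]

theorem wd_apply {D : ℕ} (a b v : E D) : wd a b v = inner ℝ a v • b - inner ℝ b v • a := rfl

theorem wd_skew {D : ℕ} (a b x y : E D) : inner ℝ (wd a b x) y = - inner ℝ x (wd a b y) := by
  rw [wd_apply, wd_apply, inner_sub_left, inner_sub_right, inner_smul_left, inner_smul_left,
    inner_smul_right, inner_smul_right, real_inner_comm x a, real_inner_comm x b]
  simp only [RCLike.conj_to_real]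
  ring

/-- an orthonormal family of full size is an orthonormal basis -/
theorem onb_of {k : ℕ} (v : Fin k → E k) (hv : Orthonormal ℝ v) :
    ∃ b : OrthonormalBasis (Fin k) ℝ (E k), ⇑b = v := by
  have hc : Fintype.card (Fin k) = Module.finrank ℝ (E k) := by simp
  rcases Nat.eq_zero_or_pos k with h0 | hk
  · subst h0
    exact ⟨EuclideanSpace.basisFun _ ℝ, by ext i; exact i.elim0⟩
  have : Nonempty (Fin k) := ⟨⟨0, hk⟩⟩
  refine ⟨(basisOfOrthonormalOfCardEqFinrank hv hc).toOrthonormalBasis ?_, ?_⟩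
  · rw [coe_basisOfOrthonormalOfCardEqFinrank]; exact hv
  · simp

/-- Hilbert-Schmidt product -/
noncomputable def hs {D : ℕ} (b c : E D →ₗ[ℝ] E D) : ℝ :=
  ∑ a : Fin D, inner ℝ (b (EuclideanSpace.single a 1)) (c (EuclideanSpace.single a 1))

theorem hs_onb {D : ℕ} (b c : E D →ₗ[ℝ] E D) (u : OrthonormalBasis (Fin D) ℝ (E D)) :
    hs b c = ∑ a : Fin D, inner ℝ (b (u a)) (c (u a)) := by
  have h1 : ∀ v : OrthonormalBasis (Fin D) ℝ (E D),
      ∑ a : Fin D, inner ℝ (b (v a)) (c (v a)) = LinearMap.trace ℝ (E D) (LinearMap.adjoint b ∘ₗ c) := by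
    intro v
    rw [LinearMap.trace_eq_sum_inner _ v]
    refine Finset.sum_congr rfl fun a _ => ?_
    rw [LinearMap.comp_apply, LinearMap.adjoint_inner_right]
  have h2 := h1 (EuclideanSpace.basisFun (Fin D) ℝ)
  rw [h1 u, ← h2, hs]
  simp

theorem hs_wd {D : ℕ} (a b c d : E D) :
    hs (wd a b) (wd c d) = 2 * (inner ℝ a c * inner ℝ b d - inner ℝ a d * inner ℝ b c) := by
  have key : ∀ x y : E D, ∑ i : Fin D, inner ℝ x (EuclideanSpace.single i (1:ℝ)) *
      inner ℝ y (EuclideanSpace.single i (1:ℝ)) = inner ℝ x y := by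
    intro x y
    simp [PiLp.inner_apply, mul_comm]
  have : hs (wd a b) (wd c d) =
      (∑ i : Fin D, inner ℝ a (EuclideanSpace.single i (1:ℝ)) * inner ℝ c (EuclideanSpace.single i (1:ℝ))) * inner ℝ b d
      - (∑ i : Fin D, inner ℝ a (EuclideanSpace.single i (1:ℝ)) * inner ℝ d (EuclideanSpace.single i (1:ℝ))) * inner ℝ b c
      - (∑ i : Fin D, inner ℝ b (EuclideanSpace.single i (1:ℝ)) * inner ℝ c (EuclideanSpace.single i (1:ℝ))) * inner ℝ a d
      + (∑ i : Fin D, inner ℝ b (EuclideanSpace.single i (1:ℝ)) * inner ℝ d (EuclideanSpace.single i (1:ℝ))) * inner ℝ a c := by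
    rw [Finset.sum_mul, Finset.sum_mul, Finset.sum_mul, Finset.sum_mul, ← Finset.sum_sub_distrib,
      ← Finset.sum_sub_distrib, ← Finset.sum_add_distrib, hs]
    refine Finset.sum_congr rfl fun i _ => ?_
    rw [wd_apply, wd_apply, inner_sub_left, inner_sub_right, inner_sub_right]
    simp only [inner_smul_left, inner_smul_right, RCLike.conj_to_real]
    ring
  rw [this, key, key, key, key]
  ring

/-- Gram matrix of `b` at `v` -/
noncomputable def Gr {N D : ℕ} (b : Fin N → (E D →ₗ[ℝ] E D)) (v : E D) : Matrix (Fin N) (Fin N) ℝ :=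
  Matrix.of fun i j => inner ℝ (b i v) (b j v)

/-- change of the family by a matrix -/
noncomputable def cb {N D : ℕ} (U : Matrix (Fin N) (Fin N) ℝ) (b : Fin N → (E D →ₗ[ℝ] E D)) :
    Fin N → (E D →ₗ[ℝ] E D) := fun j => ∑ i, U i j • b i

theorem cb_apply {N D : ℕ} (U : Matrix (Fin N) (Fin N) ℝ) (b : Fin N → (E D →ₗ[ℝ] E D)) (j : Fin N)
    (v : E D) : cb U b j v = ∑ i, U i j • b i v := by
  simp [cb]

theorem cb_inner {N D : ℕ} (U : Matrix (Fin N) (Fin N) ℝ) (b : Fin N → (E D →ₗ[ℝ] E D)) (i j : Fin N)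
    (v w : E D) : inner ℝ (cb U b i v) (cb U b j w) = ∑ k, ∑ l, U k i * U l j * inner ℝ (b k v) (b l w) := by
  rw [cb_apply, cb_apply, sum_inner]
  refine Finset.sum_congr rfl fun k _ => ?_
  rw [inner_sum]
  refine Finset.sum_congr rfl fun l _ => ?_
  rw [inner_smul_left, inner_smul_right]
  simp only [RCLike.conj_to_real]
  ring

theorem Gr_cb {N D : ℕ} (U : Matrix (Fin N) (Fin N) ℝ) (b : Fin N → (E D →ₗ[ℝ] E D)) (v : E D) :
    Gr (cb U b) v = Uᵀ * Gr b v * U := by
  ext i j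
  rw [Gr, Matrix.of_apply, cb_inner, Matrix.mul_apply, Finset.sum_comm]
  refine Finset.sum_congr rfl fun l _ => ?_
  rw [Matrix.mul_apply, Finset.sum_mul]
  refine Finset.sum_congr rfl fun k _ => ?_
  rw [Matrix.transpose_apply, Gr, Matrix.of_apply]
  ring

theorem cb_hs {N D : ℕ} (U : Matrix (Fin N) (Fin N) ℝ) (hU : Uᵀ * U = 1)
    (b : Fin N → (E D →ₗ[ℝ] E D)) (hb : ∀ i j, hs (b i) (b j) = if i = j then 2 else 0) (i j : Fin N) :
    hs (cb U b i) (cb U b j) = if i = j then 2 else 0 := by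
  have h1 : hs (cb U b i) (cb U b j) = ∑ k, ∑ l, U k i * U l j * hs (b k) (b l) := by
    simp only [hs]
    calc _ = ∑ a : Fin D, ∑ k, ∑ l, U k i * U l j *
            inner ℝ (b k (EuclideanSpace.single a 1)) (b l (EuclideanSpace.single a 1)) :=
          Finset.sum_congr rfl fun a _ => cb_inner U b i j _ _
      _ = ∑ k, ∑ a : Fin D, ∑ l, U k i * U l j *
            inner ℝ (b k (EuclideanSpace.single a 1)) (b l (EuclideanSpace.single a 1)) := Finset.sum_comm
      _ = _ := by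
          refine Finset.sum_congr rfl fun k _ => ?_
          rw [Finset.sum_comm]
          refine Finset.sum_congr rfl fun l _ => ?_
          rw [Finset.mul_sum]
  rw [h1]
  have h2 : ∀ k, ∑ l, U k i * U l j * hs (b k) (b l) = 2 * (U k i * U k j) := by
    intro k
    rw [Finset.sum_eq_single k]
    · rw [hb, if_pos rfl]; ring
    · intro l _ hl
      rw [hb, if_neg (Ne.symm hl)]; ring
    · intro h; exact absurd (Finset.mem_univ k) h
  simp only [h2]
  rw [← Finset.mul_sum]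
  have h3 : ∑ k, U k i * U k j = (Uᵀ * U) i j := by
    rw [Matrix.mul_apply]; rfl
  rw [h3, hU, Matrix.one_apply]
  split_ifs <;> norm_num

theorem cb_skew {N D : ℕ} (U : Matrix (Fin N) (Fin N) ℝ) (b : Fin N → (E D →ₗ[ℝ] E D))
    (hb : ∀ j x y, inner ℝ (b j x) y = - inner ℝ x (b j y)) (j : Fin N) (x y : E D) :
    inner ℝ (cb U b j x) y = - inner ℝ x (cb U b j y) := by
  rw [cb_apply, cb_apply, sum_inner, inner_sum, ← Finset.sum_neg_distrib]
  refine Finset.sum_congr rfl fun k _ => ?_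
  rw [inner_smul_left, inner_smul_right, hb]
  simp

theorem Gr_trace {N D : ℕ} (b : Fin N → (E D →ₗ[ℝ] E D)) (v : E D) :
    (Gr b v).trace = ∑ j, ‖b j v‖ ^ 2 := by
  simp [Gr, Matrix.trace, Matrix.diag]

theorem Gr_trace_cb {N D : ℕ} (U : Matrix (Fin N) (Fin N) ℝ) (hU : U * Uᵀ = 1)
    (b : Fin N → (E D →ₗ[ℝ] E D)) (v : E D) :
    (Gr (cb U b) v).trace = (Gr b v).trace := by
  rw [Gr_cb, Matrix.mul_assoc, Matrix.trace_mul_comm, Matrix.mul_assoc, hU, Matrix.mul_one]

theorem Gr_det_cb {N D : ℕ} (U : Matrix (Fin N) (Fin N) ℝ) (hU : Uᵀ * U = 1)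
    (b : Fin N → (E D →ₗ[ℝ] E D)) (v : E D) :
    (Gr (cb U b) v).det = (Gr b v).det := by
  rw [Gr_cb, Matrix.det_mul, Matrix.det_mul]
  have : Uᵀ.det * U.det = 1 := by rw [← Matrix.det_mul, hU, Matrix.det_one]
  calc Uᵀ.det * (Gr b v).det * U.det = (Uᵀ.det * U.det) * (Gr b v).det := by ring
    _ = _ := by rw [this, one_mul]

theorem exists_diag0 {N : ℕ} (A : Matrix (Fin N) (Fin N) ℝ) (hA : A.IsHermitian) :
    ∃ (U : Matrix (Fin N) (Fin N) ℝ) (d : Fin N → ℝ), Uᵀ * U = 1 ∧ U * Uᵀ = 1 ∧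
      Uᵀ * A * U = Matrix.diagonal d := by
  have hU1 : (hA.eigenvectorUnitary : Matrix (Fin N) (Fin N) ℝ)ᵀ *
      (hA.eigenvectorUnitary : Matrix (Fin N) (Fin N) ℝ) = 1 := by
    have := Matrix.UnitaryGroup.star_mul_self hA.eigenvectorUnitary
    rw [Matrix.star_eq_conjTranspose, Matrix.conjTranspose_eq_transpose_of_trivial] at this
    exact this
  have h3 := hA.spectral_theorem
  rw [Unitary.conjStarAlgAut_apply, Matrix.star_eq_conjTranspose,
    Matrix.conjTranspose_eq_transpose_of_trivial] at h3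
  refine ⟨_, RCLike.ofReal ∘ hA.eigenvalues, hU1, mul_eq_one_comm.mp hU1, ?_⟩
  refine (congrArg (fun M => (hA.eigenvectorUnitary : Matrix (Fin N) (Fin N) ℝ)ᵀ * M *
    (hA.eigenvectorUnitary : Matrix (Fin N) (Fin N) ℝ)) h3).trans ?_
  set U := (hA.eigenvectorUnitary : Matrix (Fin N) (Fin N) ℝ)
  calc Uᵀ * (U * Matrix.diagonal (RCLike.ofReal ∘ hA.eigenvalues) * Uᵀ) * U
      = (Uᵀ * U) * Matrix.diagonal (RCLike.ofReal ∘ hA.eigenvalues) * (Uᵀ * U) := by
        simp only [Matrix.mul_assoc]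
    _ = _ := by rw [hU1, Matrix.one_mul, Matrix.mul_one]

/-- diagonalisation of the Gram matrix at one vector -/
theorem exists_diag {N D : ℕ} (b : Fin N → (E D →ₗ[ℝ] E D)) (v : E D) :
    ∃ U : Matrix (Fin N) (Fin N) ℝ, Uᵀ * U = 1 ∧ U * Uᵀ = 1 ∧
      ∀ i j, i ≠ j → inner ℝ (cb U b i v) (cb U b j v) = 0 := by
  have hH : (Gr b v).IsHermitian := by
    ext i j
    simp [Gr, Matrix.conjTranspose_apply, real_inner_comm]
  obtain ⟨U, d, hU1, hU2, h2⟩ := exists_diag0 _ hH
  refine ⟨U, hU1, hU2, ?_⟩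
  intro i j hij
  have h1 : inner ℝ (cb U b i v) (cb U b j v) = (Gr (cb U b) v) i j := rfl
  rw [h1, Gr_cb, h2, Matrix.diagonal_apply_ne _ hij]

end Pool.Agent.W367.ST
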