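import Mathlib
import Pool.Agent.W367.ST.A

/-!
# Critical normal forms: the frame at a maximum
-/
set_option autoImplicit false
open Matrix MeasureTheory Set Metric Filter Topology
open scoped ENNReal Nat

namespace Pool.Agent.W367.ST
open Pool.Agent.Helper82.OS Pool.Agent.W546.ST

section frame
variable {k : ℕ} (c : E (k + 1)) (ι : E k →ₗᵢ[ℝ] E (k + 1))

/-- adjoint of the inclusion -/
noncomputable def ad : E (k + 1) →ₗ[ℝ] E k := LinearMap.adjoint ι.toLinearMap

theorem ad_inner (z : E (k + 1)) (y : E k) : inner ℝ (ad ι z) y = inner ℝ z (ι y) := by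
  rw [ad, LinearMap.adjoint_inner_left]; rfl

theorem ad_inner' (z : E (k + 1)) (y : E k) : inner ℝ y (ad ι z) = inner ℝ (ι y) z := by
  rw [ad, LinearMap.adjoint_inner_right]; rfl

theorem ad_self (y : E k) : ad ι (ι y) = y := by
  refine ext_inner_right ℝ fun v => ?_
  rw [ad_inner, LinearIsometry.inner_map_map]

variable {c ι}

theorem ad_c (h0 : ∀ y, inner ℝ c (ι y) = 0) : ad ι c = 0 := by
  refine ext_inner_right ℝ fun v => ?_
  rw [ad_inner, h0, inner_zero_left]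

theorem dec (hc : ‖c‖ = 1) (h0 : ∀ y, inner ℝ c (ι y) = 0)
    (h1 : ∀ z, inner ℝ c z = 0 → ∃ y, ι y = z) (z : E (k + 1)) :
    z = inner ℝ c z • c + ι (ad ι z) := by
  have hcc : inner ℝ c c = 1 := by rw [real_inner_self_eq_norm_sq, hc]; norm_num
  obtain ⟨y, hy⟩ := h1 (z - inner ℝ c z • c) (by
    rw [inner_sub_right, inner_smul_right, hcc]; ring)
  have hz : z = inner ℝ c z • c + ι y := by rw [hy]; abel
  have h2 : ad ι z = y := by
    conv_lhs => rw [hz]
    rw [map_add, map_smul, ad_c h0, smul_zero, zero_add, ad_self]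
  rw [h2]; exact hz

theorem nsq (hc : ‖c‖ = 1) (h0 : ∀ y, inner ℝ c (ι y) = 0) (t : ℝ) (y : E k) :
    ‖t • c + ι y‖ ^ 2 = t ^ 2 + ‖y‖ ^ 2 := by
  rw [norm_add_sq_real, inner_smul_left, h0, norm_smul, hc, LinearIsometry.norm_map]
  simp

theorem fr_onb (hc : ‖c‖ = 1) (h0 : ∀ y, inner ℝ c (ι y) = 0) (u : Fin k → E k) (hu : Orthonormal ℝ u) :
    ∃ b : OrthonormalBasis (Fin (k + 1)) ℝ (E (k + 1)), ⇑b = Fin.cons c (fun a => ι (u a)) := by
  refine onb_of _ ?_
  have hn : ∀ a, ‖u a‖ = 1 := hu.1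
  constructor
  · intro i
    refine Fin.cases ?_ (fun j => ?_) i
    · simpa using hc
    · simpa using hn j
  · intro i j hij
    refine Fin.cases ?_ (fun i => ?_) i hij
    · refine Fin.cases ?_ (fun j => ?_) j
      · intro h; exact absurd rfl h
      · intro _; simpa using h0 _
    · refine Fin.cases ?_ (fun j => ?_) j
      · intro _
        rw [real_inner_comm]; simpa using h0 _
      · intro h
        have hne : i ≠ j := fun e => h (by rw [e])
        simpa using hu.2 hne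

theorem hs_frame (hc : ‖c‖ = 1) (h0 : ∀ y, inner ℝ c (ι y) = 0)
    (h1 : ∀ z, inner ℝ c z = 0 → ∃ y, ι y = z) (b : E (k + 1) →ₗ[ℝ] E (k + 1))
    (hb : ∀ x y, inner ℝ (b x) y = - inner ℝ x (b y)) :
    hs b b = 2 * ‖b c‖ ^ 2 + ∑ a : Fin k, ‖ad ι (b (ι (EuclideanSpace.single a 1)))‖ ^ 2 := by
  have hcc0 : inner ℝ c (b c) = 0 := by
    have h2 := hb c c
    rw [real_inner_comm] at h2
    linarith
  obtain ⟨u, hu⟩ := fr_onb hc h0 _ (EuclideanSpace.basisFun (Fin k) ℝ).orthonormal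
  rw [hs_onb b b u, hu, Fin.sum_univ_succ]
  simp only [Fin.cons_zero, Fin.cons_succ, real_inner_self_eq_norm_sq, EuclideanSpace.basisFun_apply]
  have h3 : ∀ a : Fin k, ‖b (ι (EuclideanSpace.single a 1))‖ ^ 2 =
      inner ℝ (ad ι (b c)) (EuclideanSpace.single a (1:ℝ)) ^ 2
        + ‖ad ι (b (ι (EuclideanSpace.single a 1)))‖ ^ 2 := by
    intro a
    have h6 : inner ℝ c (b (ι (EuclideanSpace.single a (1:ℝ)))) =
        - inner ℝ (b c) (ι (EuclideanSpace.single a (1:ℝ))) := by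
      linarith [hb c (ι (EuclideanSpace.single a (1:ℝ)))]
    conv_lhs => rw [dec hc h0 h1 (b (ι (EuclideanSpace.single a 1)))]
    rw [nsq hc h0, ad_inner, h6]
    ring
  simp only [h3]
  rw [Finset.sum_add_distrib]
  have h4 : ∑ a : Fin k, inner ℝ (ad ι (b c)) (EuclideanSpace.single a (1:ℝ)) ^ 2 = ‖b c‖ ^ 2 := by
    have h5 : ‖b c‖ ^ 2 = ‖ad ι (b c)‖ ^ 2 := by
      conv_lhs => rw [dec hc h0 h1 (b c)]
      rw [nsq hc h0, hcc0]
      ring
    rw [h5, EuclideanSpace.norm_sq_eq]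
    refine Finset.sum_congr rfl fun a _ => ?_
    rw [EuclideanSpace.inner_single_right]
    simp
  rw [h4]; ring

end frame

/-- a unit vector orthogonal to `N < D` vectors of `E D` -/
theorem exists_perp {N D : ℕ} (hND : N < D) (q : Fin N → E D) :
    ∃ e : E D, ‖e‖ = 1 ∧ ∀ j, inner ℝ (q j) e = 0 := by
  have h1 : Module.finrank ℝ (Submodule.span ℝ (Set.range q)) ≤ N := by
    have := finrank_range_le_card (R := ℝ) q
    rw [Fintype.card_fin] at this
    exact this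
  have h2 := Submodule.finrank_add_finrank_orthogonal (Submodule.span ℝ (Set.range q))
  have h3 : Module.finrank ℝ (E D) = D := by simp
  have h4 : 0 < Module.finrank ℝ ((Submodule.span ℝ (Set.range q))ᗮ : Submodule ℝ (E D)) := by omega
  have h5 : Nontrivial ((Submodule.span ℝ (Set.range q))ᗮ : Submodule ℝ (E D)) :=
    Module.nontrivial_of_finrank_pos h4
  obtain ⟨v, hv⟩ := exists_ne (0 : ((Submodule.span ℝ (Set.range q))ᗮ : Submodule ℝ (E D)))
  have hv0 : (v : E D) ≠ 0 := by simpa using hv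
  have hn : ‖(v : E D)‖ ≠ 0 := by simpa using hv0
  refine ⟨(‖(v : E D)‖)⁻¹ • (v : E D), ?_, ?_⟩
  · rw [norm_smul, norm_inv, norm_norm, inv_mul_cancel₀ hn]
  · intro j
    rw [inner_smul_right]
    have := (Submodule.mem_orthogonal _ _).1 v.2 (q j) (Submodule.subset_span ⟨j, rfl⟩)
    rw [this, mul_zero]

/-- the critical frame -/
theorem exists_GN {N : ℕ} (b : Fin N → (E (N + 1 + 1) →ₗ[ℝ] E (N + 1 + 1)))
    (hsk : ∀ j x y, inner ℝ (b j x) y = - inner ℝ x (b j y))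
    (hon : ∀ i j, hs (b i) (b j) = if i = j then 2 else 0)
    (v0 : E (N + 1 + 1)) (hv0 : ‖v0‖ = 1) (ι : E (N + 1) →ₗᵢ[ℝ] E (N + 1 + 1))
    (h0 : ∀ y, inner ℝ v0 (ι y) = 0) (h1 : ∀ z, inner ℝ v0 z = 0 → ∃ y, ι y = z)
    (hdiag : ∀ i j, i ≠ j → inner ℝ (b i v0) (b j v0) = 0)
    (hmax : ∀ v, ∑ j, ‖b j v‖ ^ 2 ≤ (∑ j, ‖b j v0‖ ^ 2) * ‖v‖ ^ 2)
    (hbig : (N : ℝ) - 1 < ∑ j, ‖b j v0‖ ^ 2) :
    ∃ G : GN N, (∀ j, G.c j = ‖b j v0‖) ∧ (∀ j, b j v0 = G.c j • ι (G.q j)) ∧
      (∀ j w, G.Ga j w = ad ι (b j (ι w))) ∧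
      (∀ t w j, b j (t • v0 + ι w) = ι (G.Mv t w j) - G.lv w j • v0) := by
  have hself : ∀ j, inner ℝ v0 (b j v0) = 0 := by
    intro j
    have h2 := hsk j v0 v0
    rw [real_inner_comm] at h2
    linarith
  have hcs : ∀ j, ‖b j v0‖ ^ 2 + (1 / 2) * ∑ a : Fin (N + 1),
      ‖ad ι (b j (ι (EuclideanSpace.single a 1)))‖ ^ 2 = 1 := by
    intro j
    have h2 := hs_frame hv0 h0 h1 (b j) (hsk j)
    rw [hon, if_pos rfl] at h2
    linarith
  have hle : ∀ j, ‖b j v0‖ ^ 2 ≤ 1 := by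
    intro j
    have h2 := hcs j
    have h3 : 0 ≤ ∑ a : Fin (N + 1), ‖ad ι (b j (ι (EuclideanSpace.single a 1)))‖ ^ 2 :=
      Finset.sum_nonneg fun _ _ => by positivity
    linarith
  have hpos : ∀ j, 0 < ‖b j v0‖ := by
    intro j
    by_contra hcon
    have hz : ‖b j v0‖ = 0 := le_antisymm (not_lt.mp hcon) (norm_nonneg _)
    have h2 : ∑ i, ‖b i v0‖ ^ 2 ≤ ∑ i : Fin N, (if i = j then (0:ℝ) else 1) := by
      refine Finset.sum_le_sum fun i _ => ?_
      split_ifs with hij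
      · rw [hij, hz]; norm_num
      · exact hle i
    have h3 : ∑ i : Fin N, (if i = j then (0:ℝ) else 1) = (N : ℝ) - 1 := by
      have : ∀ i : Fin N, (if i = j then (0:ℝ) else 1) = 1 - (if i = j then 1 else 0) := by
        intro i; split_ifs <;> norm_num
      simp only [this]
      rw [Finset.sum_sub_distrib]
      simp
    linarith
  choose y hy using fun j => h1 (b j v0) (hself j)
  obtain ⟨q, hqd⟩ : ∃ q : Fin N → E (N + 1), ∀ j, q j = (‖b j v0‖)⁻¹ • y j := ⟨_, fun _ => rfl⟩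
  have hq1 : ∀ j, b j v0 = ‖b j v0‖ • ι (q j) := by
    intro j
    rw [hqd, map_smul, smul_smul, mul_inv_cancel₀ (hpos j).ne', one_smul, hy]
  have hqi : ∀ i j, ‖b i v0‖ * ‖b j v0‖ * inner ℝ (q i) (q j) = inner ℝ (b i v0) (b j v0) := by
    intro i j
    conv_rhs => rw [hq1 i, hq1 j]
    rw [inner_smul_left, inner_smul_right, LinearIsometry.inner_map_map]
    simp only [RCLike.conj_to_real]
    ring
  have hqo : Orthonormal ℝ q := by
    constructor
    · intro j
      rw [hqd, norm_smul, norm_inv, norm_norm]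
      have : ‖y j‖ = ‖b j v0‖ := by rw [← hy j, LinearIsometry.norm_map]
      rw [this, inv_mul_cancel₀ (hpos j).ne']
    · intro i j hij
      have h2 := hqi i j
      rw [hdiag i j hij] at h2
      have h3 : ‖b i v0‖ * ‖b j v0‖ ≠ 0 := mul_ne_zero (hpos i).ne' (hpos j).ne'
      exact (mul_eq_zero.mp h2).resolve_left h3
  obtain ⟨e, he, hqe⟩ := exists_perp (Nat.lt_succ_self N) q
  -- critical
  have hcr : ∀ w : E (N + 1), ∑ j, inner ℝ (b j v0) (b j (ι w)) = 0 := by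
    intro w
    have hk : ∀ s : ℝ, 2 * s * (∑ j, inner ℝ (b j v0) (b j (ι w))) ≤
        s ^ 2 * ((∑ j, ‖b j v0‖ ^ 2) * ‖w‖ ^ 2 - ∑ j, ‖b j (ι w)‖ ^ 2) := by
      intro s
      have h2 := hmax ((1:ℝ) • v0 + ι (s • w))
      rw [nsq hv0 h0, norm_smul] at h2
      have h3 : ∑ j, ‖b j ((1:ℝ) • v0 + ι (s • w))‖ ^ 2 = (∑ j, ‖b j v0‖ ^ 2)
          + 2 * s * (∑ j, inner ℝ (b j v0) (b j (ι w))) + s ^ 2 * ∑ j, ‖b j (ι w)‖ ^ 2 := by
        rw [Finset.mul_sum, Finset.mul_sum, ← Finset.sum_add_distrib, ← Finset.sum_add_distrib]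
        refine Finset.sum_congr rfl fun j _ => ?_
        rw [one_smul, map_add, map_smul, map_smul, norm_add_sq_real, inner_smul_right, norm_smul, mul_pow,
          Real.norm_eq_abs, sq_abs]
        ring
      rw [h3, mul_pow, Real.norm_eq_abs, sq_abs] at h2
      linarith
    set B := ∑ j, inner ℝ (b j v0) (b j (ι w))
    set C := (∑ j, ‖b j v0‖ ^ 2) * ‖w‖ ^ 2 - ∑ j, ‖b j (ι w)‖ ^ 2
    by_contra hB
    have hC : 0 ≤ C := by
      have a1 := hk 1
      have a2 := hk (-1)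
      linarith
    have hC1 : 0 < C + 1 := by linarith
    have h4 := hk (B / (C + 1))
    have h5 : 2 * (B / (C + 1)) * B = 2 * (B ^ 2 / (C + 1)) := by ring
    have h6 : (B / (C + 1)) ^ 2 * C ≤ B ^ 2 / (C + 1) := by
      rw [div_pow, div_mul_eq_mul_div, div_le_div_iff₀ (by positivity) hC1]
      have : 0 ≤ B ^ 2 * (C + 1) := by positivity
      nlinarith
    have h7 : 0 < B ^ 2 / (C + 1) := by positivity
    rw [h5] at h4
    linarith
  let Ga : Fin N → (E (N + 1) →ₗ[ℝ] E (N + 1)) := fun j => ad ι ∘ₗ b j ∘ₗ ι.toLinearMap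
  have hGa : ∀ j w, Ga j w = ad ι (b j (ι w)) := fun j w => rfl
  let G : GN N :=
    { e := e
      q := q
      c := fun j => ‖b j v0‖
      Ga := Ga
      he := he
      hq := hqo
      hqe := hqe
      hc := fun j => norm_nonneg _
      hsk := by
        intro j x y
        rw [hGa, hGa, ad_inner, ad_inner', hsk]
      hcs := by
        intro j
        exact hcs j
      hcrit := by
        refine ext_inner_right ℝ fun w => ?_
        rw [sum_inner, inner_zero_left]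
        have h2 : ∀ j, inner ℝ (‖b j v0‖ • Ga j (q j)) w = - inner ℝ (b j v0) (b j (ι w)) := by
          intro j
          rw [inner_smul_left, hGa, ad_inner, hsk]
          conv_rhs => rw [hq1 j]
          rw [inner_smul_left]
          simp
        simp only [h2]
        rw [Finset.sum_neg_distrib, hcr w, neg_zero] }
  refine ⟨G, fun _ => rfl, hq1, hGa, ?_⟩
  intro t w j
  have h2 : b j (ι w) = inner ℝ v0 (b j (ι w)) • v0 + ι (ad ι (b j (ι w))) := dec hv0 h0 h1 _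
  have h3 : inner ℝ v0 (b j (ι w)) = - (‖b j v0‖ * inner ℝ w (q j)) := by
    have h4 := hsk j v0 (ι w)
    have h5 : inner ℝ (b j v0) (ι w) = ‖b j v0‖ * inner ℝ w (q j) := by
      conv_lhs => rw [hq1 j]
      rw [inner_smul_left, LinearIsometry.inner_map_map, real_inner_comm]
      simp
    linarith
  show b j (t • v0 + ι w) = ι ((t * ‖b j v0‖) • q j + Ga j w) - (‖b j v0‖ * inner ℝ w (q j)) • v0
  have h6 : t • b j v0 = (t * ‖b j v0‖) • ι (q j) := by
    conv_lhs => rw [hq1 j]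
    rw [smul_smul]
  rw [map_add, map_smul, map_add, map_smul, h2, h3, hGa, h6, neg_smul]
  abel

end Pool.Agent.W367.ST
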