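import Mathlib
import Pool.Agent.W367.ST.B

/-!
# Critical normal forms: the family of a normal form, and the case `del = 0`
-/
set_option autoImplicit false
open Matrix MeasureTheory Set Metric Filter Topology
open scoped ENNReal Nat

namespace Pool.Agent.W367.ST
open Pool.Agent.Helper82.OS Pool.Agent.W546.ST

theorem hs_bilin {D : ℕ} (x y z w : E D →ₗ[ℝ] E D) (a b c d : ℝ) :
    hs (a • x + b • y) (c • z + d • w) = a * c * hs x z + a * d * hs x w + b * c * hs y z + b * d * hs y w := by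
  simp only [hs, Finset.mul_sum]
  rw [← Finset.sum_add_distrib, ← Finset.sum_add_distrib, ← Finset.sum_add_distrib]
  refine Finset.sum_congr rfl fun i _ => ?_
  simp only [LinearMap.add_apply, LinearMap.smul_apply, inner_add_left, inner_add_right, inner_smul_left,
    inner_smul_right, RCLike.conj_to_real]
  ring

/-- the skew maps of a normal form -/
noncomputable def bF {N : ℕ} (F : Fr N) (c0 : E (N + 1 + 1)) (ι0 : E (N + 1) →ₗᵢ[ℝ] E (N + 1 + 1)) :
    Fin N → (E (N + 1 + 1) →ₗ[ℝ] E (N + 1 + 1)) := fun j =>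
  F.c j • wd c0 (ι0 (F.q j)) + F.s j • wd (ι0 F.x) (ι0 (F.g j))

section
variable {N : ℕ} (F : Fr N) {c0 : E (N + 1 + 1)} {ι0 : E (N + 1) →ₗᵢ[ℝ] E (N + 1 + 1)}

theorem bF_skew (j : Fin N) (x y : E (N + 1 + 1)) :
    inner ℝ (bF F c0 ι0 j x) y = - inner ℝ x (bF F c0 ι0 j y) := by
  simp only [bF, LinearMap.add_apply, LinearMap.smul_apply, inner_add_left, inner_add_right, inner_smul_left,
    inner_smul_right, RCLike.conj_to_real]
  rw [wd_skew, wd_skew (ι0 F.x)]
  ring

theorem bF_hs (hc : ‖c0‖ = 1) (h0 : ∀ y, inner ℝ c0 (ι0 y) = 0) (i j : Fin N) :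
    hs (bF F c0 ι0 i) (bF F c0 ι0 j) = if i = j then 2 else 0 := by
  have h0' : ∀ y, inner ℝ (ι0 y) c0 = 0 := fun y => by rw [real_inner_comm]; exact h0 y
  have hcc : inner ℝ c0 c0 = 1 := by rw [real_inner_self_eq_norm_sq, hc]; norm_num
  have hxx : inner ℝ F.x F.x = 1 := by rw [real_inner_self_eq_norm_sq, F.hx]; norm_num
  have hgx' : ∀ j, inner ℝ F.x (F.g j) = 0 := fun j => by rw [real_inner_comm]; exact F.hgx j
  rw [bF, bF, hs_bilin, hs_wd, hs_wd, hs_wd, hs_wd]
  simp only [LinearIsometry.inner_map_map, h0, h0', hcc, hxx, F.hgx, hgx']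
  by_cases hij : i = j
  · subst hij
    have h1 : inner ℝ (F.q i) (F.q i) = 1 := by rw [real_inner_self_eq_norm_sq, F.hq.1]; norm_num
    have h2 : inner ℝ (F.g i) (F.g i) = 1 := by rw [real_inner_self_eq_norm_sq, F.hg.1]; norm_num
    rw [if_pos rfl, h1, h2]
    have := F.hcs i
    linarith
  · rw [if_neg hij, F.hq.2 hij, F.hg.2 hij]
    ring

theorem bF_apply (hc : ‖c0‖ = 1) (h0 : ∀ y, inner ℝ c0 (ι0 y) = 0) (j : Fin N) (t : ℝ) (w : E (N + 1)) :
    bF F c0 ι0 j (t • c0 + ι0 w) = ι0 (F.Mv t w j) - F.lv w j • c0 := by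
  have h0' : ∀ y, inner ℝ (ι0 y) c0 = 0 := fun y => by rw [real_inner_comm]; exact h0 y
  have hcc : inner ℝ c0 c0 = 1 := by rw [real_inner_self_eq_norm_sq, hc]; norm_num
  simp only [bF, LinearMap.add_apply, LinearMap.smul_apply, wd_apply, Fr.Mv, Fr.lv,
    h0, h0', hcc, LinearIsometry.inner_map_map, map_add, map_smul, map_sub]
  rw [real_inner_comm (F.q j) w, real_inner_comm F.x w, real_inner_comm (F.g j) w]
  module

theorem gram_of {k : ℕ} {c : E (k + 1)} {ι : E k →ₗᵢ[ℝ] E (k + 1)}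
    (hc : ‖c‖ = 1) (h0 : ∀ y, inner ℝ c (ι y) = 0) (a b : E k) (l m : ℝ) :
    inner ℝ (ι a - l • c) (ι b - m • c) = inner ℝ a b + l * m := by
  have h0' : ∀ y, inner ℝ (ι y) c = 0 := fun y => by rw [real_inner_comm]; exact h0 y
  have hcc : inner ℝ c c = 1 := by rw [real_inner_self_eq_norm_sq, hc]; norm_num
  simp only [inner_sub_left, inner_sub_right, inner_smul_left, inner_smul_right, RCLike.conj_to_real, h0, h0',
    hcc, LinearIsometry.inner_map_map]
  ring

theorem Gr_bF (hc : ‖c0‖ = 1) (h0 : ∀ y, inner ℝ c0 (ι0 y) = 0) (t : ℝ) (w : E (N + 1)) :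
    Gr (bF F c0 ι0) (t • c0 + ι0 w) = F.Gm t w := by
  ext i j
  rw [Gr, Matrix.of_apply, bF_apply F hc h0, bF_apply F hc h0, gram_of hc h0, Fr.Gm, Matrix.of_apply]

theorem Gr_GN {N : ℕ} (G : GN N) {v0 : E (N + 1 + 1)} {ι : E (N + 1) →ₗᵢ[ℝ] E (N + 1 + 1)}
    (hc : ‖v0‖ = 1) (h0 : ∀ y, inner ℝ v0 (ι y) = 0) (b : Fin N → (E (N + 1 + 1) →ₗ[ℝ] E (N + 1 + 1)))
    (hb : ∀ t w j, b j (t • v0 + ι w) = ι (G.Mv t w j) - G.lv w j • v0) (t : ℝ) (w : E (N + 1)) :
    Gr b (t • v0 + ι w) = G.Gm t w := by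
  ext i j
  rw [Gr, Matrix.of_apply, hb, hb, gram_of hc h0, GN.Gm, Matrix.of_apply]

end

/-- polarised trace is invariant -/
theorem cb_sum_inner {N D : ℕ} (U : Matrix (Fin N) (Fin N) ℝ) (hU : U * Uᵀ = 1)
    (b : Fin N → (E D →ₗ[ℝ] E D)) (v w : E D) :
    ∑ j, inner ℝ (cb U b j v) (cb U b j w) = ∑ j, inner ℝ (b j v) (b j w) := by
  simp only [cb_inner]
  rw [Finset.sum_comm]
  refine Finset.sum_congr rfl fun k _ => ?_
  rw [Finset.sum_comm]
  rw [Finset.sum_eq_single k]
  · rw [← Finset.sum_mul]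
    have h3 : ∑ j, U k j * U k j = (U * Uᵀ) k k := by rw [Matrix.mul_apply]; rfl
    rw [h3, hU, Matrix.one_apply_eq, one_mul]
  · intro l _ hl
    rw [← Finset.sum_mul]
    have h3 : ∑ j, U k j * U l j = (U * Uᵀ) k l := by rw [Matrix.mul_apply]; rfl
    rw [h3, hU, Matrix.one_apply_ne (Ne.symm hl), zero_mul]
  · intro h; exact absurd (Finset.mem_univ k) h

/-- the last claim -/
theorem del_zero {N : ℕ} (hN : 3 ≤ N) (F : Fr N) {c0 : E (N + 1 + 1)} {ι0 : E (N + 1) →ₗᵢ[ℝ] E (N + 1 + 1)}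
    (hc : ‖c0‖ = 1) (h0 : ∀ y, inner ℝ c0 (ι0 y) = 0)
    (U : Matrix (Fin N) (Fin N) ℝ) (hU : U * Uᵀ = 1)
    {v0 : E (N + 1 + 1)} (hv0 : ‖v0‖ = 1) {ι : E (N + 1) →ₗᵢ[ℝ] E (N + 1 + 1)}
    (k0 : ∀ y, inner ℝ v0 (ι y) = 0) (k1 : ∀ z, inner ℝ v0 z = 0 → ∃ y, ι y = z)
    (G : GN N)
    (hG : ∀ t w j, cb U (bF F c0 ι0) j (t • v0 + ι w) = ι (G.Mv t w j) - G.lv w j • v0)
    (hdel : G.del = 0) : F.del = 0 := by
  have hNr : (3:ℝ) ≤ N := by exact_mod_cast hN
  -- consequences of `del = 0`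
  have hS : ∀ j, 0 ≤ ∑ a : Fin (N + 1), ‖G.Ga j (EuclideanSpace.single a 1)‖ ^ 2 :=
    fun j => Finset.sum_nonneg fun _ _ => by positivity
  have hc1 : ∀ j, G.c j = 1 := by
    have h2 : ∀ j ∈ Finset.univ, 0 ≤ 1 - G.c j ^ 2 := fun j _ => by
      have := G.hcs j; have := hS j; linarith
    have h3 := (Finset.sum_eq_zero_iff_of_nonneg h2).mp hdel
    intro j
    have h4 := h3 j (Finset.mem_univ j)
    have h5 := G.hc j
    nlinarith
  have hGa : ∀ j w, G.Ga j w = 0 := by
    intro j w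
    have h2 : ∑ a : Fin (N + 1), ‖G.Ga j (EuclideanSpace.single a 1)‖ ^ 2 = 0 := by
      have := G.hcs j
      rw [hc1] at this
      linarith
    have h3 := (Finset.sum_eq_zero_iff_of_nonneg (fun a _ => by positivity)).mp h2
    have h4 : G.Ga j = 0 := by
      refine (EuclideanSpace.basisFun (Fin (N + 1)) ℝ).toBasis.ext fun a => ?_
      have := h3 a (Finset.mem_univ a)
      simpa using this
    rw [h4]; rfl
  set b' := cb U (bF F c0 ι0) with hb'
  have hbz : ∀ j z, b' j z = inner ℝ v0 z • ι (G.q j) - inner ℝ (ι (G.q j)) z • v0 := by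
    intro j z
    conv_lhs => rw [dec hv0 k0 k1 z]
    rw [hG, GN.Mv, GN.lv, hGa, hc1, ad_inner]
    rw [add_zero, mul_one, one_mul, map_smul, real_inner_comm (ι (G.q j)) z]
  have hskew' : ∀ z, inner ℝ (ι z) v0 = 0 := fun z => by rw [real_inner_comm]; exact k0 z
  have hvv : inner ℝ v0 v0 = 1 := by rw [real_inner_self_eq_norm_sq, hv0]; norm_num
  -- orthonormal basis
  have hqe : Orthonormal ℝ (Fin.cons G.e G.q : Fin (N + 1) → E (N + 1)) := by
    constructor
    · intro i
      refine Fin.cases ?_ (fun j => ?_) i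
      · simpa using G.he
      · simpa using G.hq.1 j
    · intro i j hij
      refine Fin.cases ?_ (fun i => ?_) i hij
      · refine Fin.cases ?_ (fun j => ?_) j
        · intro h; exact absurd rfl h
        · intro _
          rw [real_inner_comm]; simpa using G.hqe j
      · refine Fin.cases ?_ (fun j => ?_) j
        · intro _
          simpa using G.hqe i
        · intro h
          have hne : i ≠ j := fun e => h (by rw [e])
          simpa using G.hq.2 hne
  obtain ⟨B, hB⟩ := fr_onb hv0 k0 _ hqe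
  have hpars : ∀ z z' : E (N + 1 + 1), inner ℝ z z' = inner ℝ v0 z * inner ℝ v0 z'
      + (inner ℝ (ι G.e) z * inner ℝ (ι G.e) z' + ∑ j, inner ℝ (ι (G.q j)) z * inner ℝ (ι (G.q j)) z') := by
    intro z z'
    rw [← B.sum_inner_mul_inner z z', hB, Fin.sum_univ_succ, Fin.sum_univ_succ]
    simp only [Fin.cons_zero, Fin.cons_succ]
    rw [real_inner_comm v0 z, real_inner_comm (ι G.e) z]
    congr 2
    refine Finset.sum_congr rfl fun j _ => ?_
    rw [real_inner_comm (ι (G.q j)) z]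
  have hBil : ∀ z z' : E (N + 1 + 1), ∑ j, inner ℝ (bF F c0 ι0 j z) (bF F c0 ι0 j z') =
      ((N : ℝ) - 1) * (inner ℝ v0 z * inner ℝ v0 z') + inner ℝ z z'
        - inner ℝ (ι G.e) z * inner ℝ (ι G.e) z' := by
    intro z z'
    rw [← cb_sum_inner U hU, ← hb', hpars z z']
    have h2 : ∀ j, inner ℝ (b' j z) (b' j z') = inner ℝ v0 z * inner ℝ v0 z'
        + inner ℝ (ι (G.q j)) z * inner ℝ (ι (G.q j)) z' := by
      intro j
      have h3 : inner ℝ (G.q j) (G.q j) = 1 := by rw [real_inner_self_eq_norm_sq, G.hq.1]; norm_num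
      rw [hbz, hbz, inner_sub_left, inner_sub_right, inner_sub_right]
      simp only [inner_smul_left, inner_smul_right, RCLike.conj_to_real, hskew', k0, hvv,
        LinearIsometry.inner_map_map, h3]
      ring
    simp only [h2]
    rw [Finset.sum_add_distrib, Finset.sum_const, Finset.card_univ, Fintype.card_fin, nsmul_eq_mul]
    ring
  set X := ι0 F.x with hX
  have hXX : inner ℝ X X = 1 := by
    rw [hX, LinearIsometry.inner_map_map, real_inner_self_eq_norm_sq, F.hx]; norm_num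
  have hcc : inner ℝ c0 c0 = 1 := by rw [real_inner_self_eq_norm_sq, hc]; norm_num
  have hcX : inner ℝ c0 X = 0 := h0 _
  have hXc : inner ℝ X c0 = 0 := by rw [real_inner_comm]; exact hcX
  -- `v0` is orthogonal to the complement of the plane
  have hplane : ∀ y, inner ℝ c0 y = 0 → inner ℝ X y = 0 → inner ℝ v0 y = 0 := by
    intro y hy1 hy2
    by_contra hne
    obtain ⟨z, hz, hzp⟩ := exists_perp (show 4 < N + 1 + 1 by omega) ![c0, X, v0, ι G.e]
    have z1 : inner ℝ c0 z = 0 := hzp 0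
    have z2 : inner ℝ X z = 0 := hzp 1
    have z3 : inner ℝ v0 z = 0 := hzp 2
    have z4 : inner ℝ (ι G.e) z = 0 := hzp 3
    have h5 : ∀ j, inner ℝ (b' j y) z = 0 := by
      intro j
      rw [hb', cb_apply, sum_inner]
      refine Finset.sum_eq_zero fun i _ => ?_
      rw [inner_smul_left, bF, LinearMap.add_apply, LinearMap.smul_apply, LinearMap.smul_apply, wd_apply,
        wd_apply, ← hX]
      simp only [inner_add_left, inner_sub_left, inner_smul_left, RCLike.conj_to_real, z1, z2, hy1, hy2]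
      ring
    have h6 : ∀ j, inner ℝ (ι (G.q j)) z = 0 := by
      intro j
      have h7 := h5 j
      rw [hbz, inner_sub_left, inner_smul_left, inner_smul_left, z3] at h7
      simp only [RCLike.conj_to_real, mul_zero, sub_zero] at h7
      exact (mul_eq_zero.mp h7).resolve_left hne
    have h8 := hpars z z
    simp only [z3, z4, h6, mul_zero, Finset.sum_const_zero, add_zero] at h8
    rw [real_inner_self_eq_norm_sq, hz] at h8
    norm_num at h8
  set α := inner ℝ c0 v0 with hα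
  set β := inner ℝ X v0 with hβ
  have hα' : inner ℝ v0 c0 = α := real_inner_comm _ _
  have hβ' : inner ℝ v0 X = β := real_inner_comm _ _
  set y := v0 - α • c0 - β • X with hy
  have hy1 : inner ℝ c0 y = 0 := by
    rw [hy, inner_sub_right, inner_sub_right, inner_smul_right, inner_smul_right, hcc, hcX, ← hα]; ring
  have hy2 : inner ℝ X y = 0 := by
    rw [hy, inner_sub_right, inner_sub_right, inner_smul_right, inner_smul_right, hXc, hXX, ← hβ]; ring
  have hy3 : inner ℝ v0 y = 0 := hplane y hy1 hy2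
  have hab : α ^ 2 + β ^ 2 = 1 := by
    rw [hy, inner_sub_right, inner_sub_right, inner_smul_right, inner_smul_right, hvv, hα', hβ'] at hy3
    linarith
  have hy0 : y = 0 := by
    rw [← inner_self_eq_zero (𝕜 := ℝ)]
    have h2 : inner ℝ y y = inner ℝ v0 y - α * inner ℝ c0 y - β * inner ℝ X y := by
      conv_lhs => rw [show inner ℝ y y = inner ℝ (v0 - α • c0 - β • X) y from rfl]
      rw [inner_sub_left, inner_sub_left, inner_smul_left, inner_smul_left]
      simp
    rw [h2, hy1, hy2, hy3]; ring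
  have hv : v0 = α • c0 + β • X := by
    have h2 : v0 - α • c0 - β • X = 0 := hy0
    have h3 : v0 = (v0 - α • c0 - β • X) + (α • c0 + β • X) := by abel
    rw [h2, zero_add] at h3
    exact h3
  set p := inner ℝ (ι G.e) c0 with hp
  set r := inner ℝ (ι G.e) X with hr
  have hpr : α * p + β * r = 0 := by
    have h2 := hskew' G.e
    rw [hv, inner_add_right, inner_smul_right, inner_smul_right] at h2
    exact h2
  -- values of `Q`
  have hbc : ∀ j, bF F c0 ι0 j c0 = F.c j • ι0 (F.q j) := by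
    intro j
    have h2 := bF_apply F hc h0 j 1 0
    rw [map_zero, add_zero, one_smul] at h2
    rw [h2, Fr.Mv, Fr.lv]
    simp
  have hbX : ∀ j, bF F c0 ι0 j X = F.s j • ι0 (F.g j) - (F.c j * inner ℝ F.x (F.q j)) • c0 := by
    intro j
    have hxx : inner ℝ F.x F.x = 1 := by rw [real_inner_self_eq_norm_sq, F.hx]; norm_num
    have hgx' : inner ℝ F.x (F.g j) = 0 := by rw [real_inner_comm]; exact F.hgx j
    have h2 := bF_apply F hc h0 j 0 F.x
    rw [zero_smul, zero_add] at h2
    rw [hX, h2, Fr.Mv, Fr.lv, hxx, hgx']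
    simp
  have hQ1 : ∑ j, inner ℝ (bF F c0 ι0 j c0) (bF F c0 ι0 j X) = 0 := by
    rw [← F.hgam]
    refine Finset.sum_congr rfl fun j _ => ?_
    have h0' : ∀ y, inner ℝ (ι0 y) c0 = 0 := fun y => by rw [real_inner_comm]; exact h0 y
    rw [hbc, hbX, inner_sub_right]
    simp only [inner_smul_left, inner_smul_right, RCLike.conj_to_real, h0', LinearIsometry.inner_map_map]
    ring
  have hQ2 : ∑ j, inner ℝ (bF F c0 ι0 j c0) (bF F c0 ι0 j c0) = N - F.del := by
    have h2 : (N : ℝ) - F.del = ∑ j : Fin N, (1 - F.s j ^ 2) := by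
      rw [Finset.sum_sub_distrib, Fr.del]; simp
    rw [h2]
    refine Finset.sum_congr rfl fun j _ => ?_
    have h3 : inner ℝ (F.q j) (F.q j) = 1 := by rw [real_inner_self_eq_norm_sq, F.hq.1]; norm_num
    rw [hbc]
    simp only [inner_smul_left, inner_smul_right, RCLike.conj_to_real, LinearIsometry.inner_map_map, h3]
    have := F.hcs j
    linarith
  have e1 := hBil c0 X
  rw [hQ1, hα', hβ', hcX, ← hp, ← hr] at e1
  have e2 := hBil c0 c0
  rw [hQ2, hα', hcc, ← hp] at e2
  have hdF : 2 * F.del ≤ N := F.hdel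
  have hαβ : α * β = 0 := by
    by_contra hne
    have h2 : (α * β) * (p * r) = ((N : ℝ) - 1) * (α * β) ^ 2 := by
      have : p * r = ((N : ℝ) - 1) * (α * β) := by linarith
      rw [this]; ring
    have h3 : (α * β) * (p * r) = -(β * r) ^ 2 := by
      have : α * p = -(β * r) := by linarith
      calc (α * β) * (p * r) = (α * p) * (β * r) := by ring
        _ = _ := by rw [this]; ring
    have h4 : 0 < (α * β) ^ 2 := by positivity
    have h5 : 0 ≤ (β * r) ^ 2 := by positivity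
    nlinarith
  rcases mul_eq_zero.mp hαβ with h | h
  · exfalso
    rw [h] at e2
    have : 0 ≤ p * p := mul_self_nonneg p
    linarith
  · rw [h] at hab hpr
    have hα1 : α ^ 2 = 1 := by linarith
    have hα0 : α ≠ 0 := by
      intro h2; rw [h2] at hα1; norm_num at hα1
    have hp0 : p = 0 := by
      have : α * p = 0 := by linarith
      exact (mul_eq_zero.mp this).resolve_left hα0
    rw [hp0] at e2
    have : α * α = 1 := by rw [← hα1]; ring
    rw [this] at e2
    linarith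

end Pool.Agent.W367.ST
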