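import Mathlib
import Pool.Agent.W367.ST.C

/-!
# Every normal form can be rotated to a critical one
-/
set_option autoImplicit false
open Matrix MeasureTheory Set Metric Filter Topology
open scoped ENNReal Nat

namespace Pool.Agent.W367.ST
open Pool.Agent.Helper82.OS Pool.Agent.W546.ST

theorem int_frame {k : ℕ} {c : E (k + 1)} {ι : E k →ₗᵢ[ℝ] E (k + 1)}
    (hm : MeasurePreserving (fun p : ℝ × E k => p.1 • c + ι p.2) (volume.prod volume) volume)
    (f : E (k + 1) → ℝ≥0∞) (hf : Measurable f) :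
    ∫⁻ v, f v = ∫⁻ w : E k, ∫⁻ t : ℝ, f (t • c + ι w) := by
  rw [← hm.lintegral_comp hf]
  have h1 : Measurable fun p : ℝ × E k => f (p.1 • c + ι p.2) := by
    refine hf.comp ?_
    have : Continuous fun p : ℝ × E k => p.1 • c + ι p.2 := by
      have := ι.continuous
      fun_prop
    exact this.measurable
  rw [lintegral_prod_symm _ h1.aemeasurable]

theorem meas_Gr {N D : ℕ} (b : Fin N → (E D →ₗ[ℝ] E D)) :
    Measurable fun v : E D => ENNReal.ofReal (Real.sqrt (Gr b v).det * Real.exp (-(‖v‖ ^ 2 / 2))) := by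
  have hb : ∀ j, Continuous (b j) := fun j => LinearMap.continuous_of_finiteDimensional _
  have h1 : Continuous fun v : E D => (Gr b v).det := by
    refine Continuous.matrix_det ?_
    refine continuous_matrix fun i j => ?_
    show Continuous fun v => inner ℝ (b i v) (b j v)
    exact (hb i).inner (hb j)
  have h2 : Continuous fun v : E D => Real.sqrt (Gr b v).det * Real.exp (-(‖v‖ ^ 2 / 2)) := by
    refine (Real.continuous_sqrt.comp h1).mul ?_
    fun_prop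
  exact ENNReal.measurable_ofReal.comp h2.measurable

theorem exists_max {N D : ℕ} (b : Fin N → (E (D + 1) →ₗ[ℝ] E (D + 1))) :
    ∃ v0 : E (D + 1), ‖v0‖ = 1 ∧ ∀ v, ∑ j, ‖b j v‖ ^ 2 ≤ (∑ j, ‖b j v0‖ ^ 2) * ‖v‖ ^ 2 := by
  have hb : ∀ j, Continuous (b j) := fun j => LinearMap.continuous_of_finiteDimensional _
  have hcont : Continuous fun v : E (D + 1) => ∑ j, ‖b j v‖ ^ 2 := by
    refine continuous_finsetSum _ fun j _ => ?_
    exact ((hb j).norm).pow 2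
  have hne : (sphere (0 : E (D + 1)) 1).Nonempty :=
    ⟨EuclideanSpace.single 0 1, by simp⟩
  obtain ⟨v0, hv0, hmax⟩ := (isCompact_sphere (0 : E (D + 1)) 1).exists_isMaxOn hne hcont.continuousOn
  have hn0 : ‖v0‖ = 1 := by simpa using hv0
  refine ⟨v0, hn0, fun v => ?_⟩
  by_cases hv : v = 0
  · simp [hv]
  have hnv : ‖v‖ ≠ 0 := by simpa using hv
  have h1 : (‖v‖)⁻¹ • v ∈ sphere (0 : E (D + 1)) 1 := by
    simp [norm_smul, hnv]
  have h2 : ∑ j, ‖b j ((‖v‖)⁻¹ • v)‖ ^ 2 ≤ ∑ j, ‖b j v0‖ ^ 2 := hmax h1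
  have h3 : ∑ j, ‖b j ((‖v‖)⁻¹ • v)‖ ^ 2 = (‖v‖ ^ 2)⁻¹ * ∑ j, ‖b j v‖ ^ 2 := by
    rw [Finset.mul_sum]
    refine Finset.sum_congr rfl fun j _ => ?_
    rw [map_smul, norm_smul, norm_inv, norm_norm, mul_pow, inv_pow]
  rw [h3] at h2
  have h4 : 0 < ‖v‖ ^ 2 := by positivity
  rw [inv_mul_le_iff₀ h4] at h2
  linarith

theorem NFG : St_NFG := by
  intro N hN F hex
  obtain ⟨ι0, h0, h01, hm0⟩ := D0 (EuclideanSpace.single (0 : Fin (N + 1 + 1)) (1:ℝ)) (by simp)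
  set c0 : E (N + 1 + 1) := EuclideanSpace.single (0 : Fin (N + 1 + 1)) (1:ℝ) with hc0
  have hc : ‖c0‖ = 1 := by simp [hc0]
  obtain ⟨v0, hv0, hmax⟩ := exists_max (bF F c0 ι0)
  obtain ⟨ι, k0, k1, km⟩ := D0 v0 hv0
  obtain ⟨U, hU1, hU2, hdiag⟩ := exists_diag (bF F c0 ι0) v0
  have htr : ∀ v, ∑ j, ‖cb U (bF F c0 ι0) j v‖ ^ 2 = ∑ j, ‖bF F c0 ι0 j v‖ ^ 2 := by
    intro v
    rw [← Gr_trace, ← Gr_trace, Gr_trace_cb U hU2]
  have htF : ∀ t w, t ^ 2 + ‖w‖ ^ 2 = 1 → (F.Gm t w).trace ≤ ∑ j, ‖bF F c0 ι0 j v0‖ ^ 2 := by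
    intro t w htw
    rw [← Gr_bF F hc h0, Gr_trace]
    have h2 := hmax (t • c0 + ι0 w)
    rw [nsq hc h0, htw, mul_one] at h2
    exact h2
  have hbig : (N : ℝ) - 1 < ∑ j, ‖cb U (bF F c0 ι0) j v0‖ ^ 2 := by
    obtain ⟨t, w, htw, h2⟩ := hex
    rw [htr]
    have := htF t w htw
    linarith
  obtain ⟨G, hGc, hGq, hGa, hG⟩ := exists_GN (cb U (bF F c0 ι0)) (cb_skew U _ (bF_skew F))
    (cb_hs U hU1 _ (bF_hs F hc h0)) v0 hv0 ι k0 k1 hdiag
    (fun v => by rw [htr, htr]; exact hmax v) hbig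
  have hdelG : G.del = N - ∑ j, ‖bF F c0 ι0 j v0‖ ^ 2 := by
    rw [GN.del, Finset.sum_sub_distrib]
    simp only [hGc]
    rw [htr]
    simp
  refine ⟨G, ?_, ?_, ?_⟩
  · -- integrals
    have e1 : GFr F = ∫⁻ v : E (N + 1 + 1),
        ENNReal.ofReal (Real.sqrt (Gr (bF F c0 ι0) v).det * Real.exp (-(‖v‖ ^ 2 / 2))) := by
      rw [int_frame hm0 _ (meas_Gr _), GFr]
      refine lintegral_congr fun w => lintegral_congr fun t => ?_
      rw [Gr_bF F hc h0, nsq hc h0, Fr.FF, gt, gw, mul_assoc, ← Real.exp_add]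
      congr 3
      ring_nf
    have e2 : GGN G = ∫⁻ v : E (N + 1 + 1),
        ENNReal.ofReal (Real.sqrt (Gr (cb U (bF F c0 ι0)) v).det * Real.exp (-(‖v‖ ^ 2 / 2))) := by
      rw [int_frame km _ (meas_Gr _), GGN]
      refine lintegral_congr fun w => lintegral_congr fun t => ?_
      rw [Gr_GN G hv0 k0 _ hG, nsq hv0 k0, GN.FF, gt, gw, mul_assoc, ← Real.exp_add]
      congr 3
      ring_nf
    rw [e1, e2]
    refine lintegral_congr fun v => ?_
    rw [Gr_det_cb U hU1]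
  · intro t w htw
    rw [hdelG]
    have := htF t w htw
    linarith
  · intro hd
    exact del_zero hN F hc h0 U hU2 hv0 k0 k1 G hG hd

end Pool.Agent.W367.ST
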